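import Pool.Agent.Q269.GJ.StF

/-!
# Job GJ-BAD: the prime divisors of the differences over `k'`
-/

set_option autoImplicit false
set_option linter.all false

open scoped Classical
open Finset Polynomial

namespace Pool.Agent.Q252.GJ

open Pool.Agent.Q269.GJ
open Pool.Agent.Q269.GR (F2 cf ev Un Eb dl IsRt gg hv own Irn Dn pr Fr xi fr ph fp Om rt)
open Pool.Agent.Y164.PS (L)
open Pool.Agent.Y164.HG (Geo Del Tau QQ bpF)

theorem ph_map {k k' : Type} [Field k] [Fintype k] [Field k'] [Algebra k k'] (Q : k[X]) :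
    ph k (Q.map (algebraMap k k')) = Q.map (algebraMap k k') := by
  show (Q.map (algebraMap k k')).map (fr k) = _
  rw [Polynomial.map_map]
  congr 1
  ext x
  show fr k (algebraMap k k' x) = algebraMap k k' x
  exact (FiniteField.frobeniusAlgHom k k').commutes x

theorem mem_pr_of {k : Type} [Field k] {D P : k[X]} (hD : D ≠ 0) (h1 : P.Monic) (h2 : Irreducible P)
    (h3 : P ∣ D) : P ∈ pr D := by
  apply Multiset.mem_toFinset.2
  obtain ⟨q, hq, hpq⟩ := UniqueFactorizationMonoid.exists_mem_normalizedFactors_of_dvd hD h2 h3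
  have h4 := UniqueFactorizationMonoid.normalize_normalized_factor q hq
  have h5 : normalize P = P := Polynomial.Monic.normalize_eq_self h1
  rw [← h5, normalize_eq_normalize hpq.dvd hpq.symm.dvd, h4]
  exact hq

theorem pr_mem {k : Type} [Field k] {D P : k[X]} (hP : P ∈ pr D) :
    P.Monic ∧ Irreducible P ∧ P ∣ D := by
  have h1 : P ∈ UniqueFactorizationMonoid.normalizedFactors D := Multiset.mem_toFinset.1 hP
  have h2 := UniqueFactorizationMonoid.irreducible_of_normalized_factor P h1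
  have h3 := UniqueFactorizationMonoid.normalize_normalized_factor P h1
  refine ⟨?_, h2, UniqueFactorizationMonoid.dvd_of_mem_normalizedFactors h1⟩
  rw [← h3]
  exact Polynomial.monic_normalize h2.ne_zero

theorem t_BAD (h1 : S_HYM) (h2 : Pool.Agent.Q269.GR.S_FCD) (h3 : Pool.Agent.Q269.GR.S_SYR)
    (h4 : Pool.Agent.Q269.GR.S_FCT) : S_BAD := by
  intro k k' _ _ _ _ _ n _ a N H H' hE
  haveI : Algebra.IsAlgebraic k k' := inferInstance
  let j : k' →ₐ[k] Om k := IsAlgClosed.lift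
  obtain ⟨f1, f2, f3⟩ := h2 k k' j
  obtain ⟨-, hDel, -⟩ := h1 k k' n a N H
  have inj : Function.Injective (algebraMap k k') := (algebraMap k k').injective
  have hM : ∀ Q : k[X], Q ∈ bpF a → Q.Monic ∧ Irreducible Q ∧ Q ∣ Del a := fun Q hQ => H.mem.1 hQ
  have hco : ∀ Q : k[X], Q ∈ bpF a → Nat.Coprime (Module.finrank k k') Q.natDegree := fun Q hQ =>
    hE.cop Q (hM Q hQ).1 (hM Q hQ).2.1 (hM Q hQ).2.2
  have hto : ∀ Q : k[X], Q ∈ bpF a → Q.map (algebraMap k k') ∈ bpF (am k' a) := by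
    intro Q hQ
    obtain ⟨m1, m2, m3⟩ := hM Q hQ
    rw [H'.mem]
    refine ⟨m1.map _, (f3 Q m1 m2 (hco Q hQ)).1, ?_⟩
    rw [hDel]
    exact Polynomial.map_dvd _ m3
  let β0 : Tau a → Tau (am k' a) := fun s => ⟨(QQ a s).map (algebraMap k k'), hto _ s.2⟩
  have hinj : Function.Injective β0 := by
    intro s s' h
    have h5 := congrArg Subtype.val h
    exact Subtype.ext (Polynomial.map_injective _ inj h5)
  have hsur : Function.Surjective β0 := by
    rintro ⟨Q', hQ'⟩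
    obtain ⟨m1, m2, m3⟩ := H'.mem.1 hQ'
    rw [hDel] at m3
    have h5 : (Del a).map (algebraMap k k') ≠ 0 := (Polynomial.map_ne_zero_iff inj).2 H.del_ne
    have h6 := mem_pr_of h5 m1 m2 m3
    rw [f1 _ H.del_ne, mem_biUnion] at h6
    obtain ⟨P, hP, h7⟩ := h6
    obtain ⟨c, hc, h8⟩ := mem_image.1 h7
    obtain ⟨p1, p2, p3⟩ := pr_mem hP
    have hPb : P ∈ bpF a := H.mem.2 ⟨p1, p2, p3⟩
    have h9 : Nat.gcd (Module.finrank k k') P.natDegree = 1 := hco P hPb
    rw [h9, mem_range, Nat.lt_one_iff] at hc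
    rw [hc] at h8
    refine ⟨⟨P, hPb⟩, Subtype.ext ?_⟩
    show P.map (algebraMap k k') = Q'
    rw [← (f3 P p1 p2 (hco P hPb)).2]
    exact h8
  have hsym : ∀ s : Tau a, ∀ f : k[X], L (f.map (algebraMap k k')) (QQ (am k' a) (β0 s)) =
      L f (QQ a s) := by
    intro s f
    obtain ⟨m1, m2, m3⟩ := hM _ s.2
    have h5 := (h3 k k' j H.hk hE.odd (QQ a s) m1 m2).2 f
    have h6 : fp j (QQ a s) = (QQ a s).map (algebraMap k k') := (f3 _ m1 m2 (hco _ s.2)).2
    rw [← h5]
    show L _ ((QQ a s).map (algebraMap k k')) = _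
    rw [← h6]
  have hsub : ∀ x y : Fin n, am k' a x - am k' a y = (a x - a y).map (algebraMap k k') := by
    intro x y
    rw [Polynomial.map_sub]
    rfl
  have hpq : ∀ s : Tau a, H'.p (β0 s) = H.p s ∧ H'.q (β0 s) = H.q s := by
    intro s
    have hlt := H.lt s
    have h5 : QQ (am k' a) (β0 s) ∣ am k' a (H.p s) - am k' a (H.q s) := by
      rw [hsub]
      exact Polynomial.map_dvd _ (H.dvd s)
    rcases (H'.dvd_iff (β0 s) (ne_of_lt hlt)).1 h5 with h6 | h6
    · exact h6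
    · exfalso
      have h7 := H'.lt (β0 s)
      rw [h6.1, h6.2] at h7
      exact lt_asymm h7 hlt
  refine ⟨Equiv.ofBijective β0 ⟨hinj, hsur⟩, fun s => ?_⟩
  show QQ (am k' a) (β0 s) = (QQ a s).map (algebraMap k k') ∧ H'.p (β0 s) = H.p s ∧
    H'.q (β0 s) = H.q s ∧ H'.comb.gg (β0 s) = H.comb.gg s ∧
    (∀ f : k[X], L (f.map (algebraMap k k')) (QQ (am k' a) (β0 s)) = L f (QQ a s)) ∧
    ph k (QQ (am k' a) (β0 s)) = QQ (am k' a) (β0 s) ∧
    (QQ (am k' a) (β0 s)).natDegree = (QQ a s).natDegree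
  refine ⟨rfl, (hpq s).1, (hpq s).2, ?_, hsym s, ph_map _, Polynomial.natDegree_map _⟩
  show (∑ l, if l = H'.p (β0 s) ∨ l = H'.q (β0 s) then (0 : F2) else
      L (am k' a (H'.p (β0 s)) - am k' a l) (QQ (am k' a) (β0 s))) =
    ∑ l, if l = H.p s ∨ l = H.q s then (0 : F2) else L (a (H.p s) - a l) (QQ a s)
  rw [(hpq s).1, (hpq s).2]
  refine sum_congr rfl fun l _ => ?_
  rw [hsub, hsym s]

end Pool.Agent.Q252.GJ
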