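import Pool.Agent.Q269.GJ.StF

/-!
# Job GJ-CNV: the equations in terms of the symbols
-/

set_option autoImplicit false
set_option linter.all false

open scoped Classical
open Finset Polynomial

namespace Pool.Agent.Q252.GJ

open Pool.Agent.Q269.GJ
open Pool.Agent.Q269.GR (F2 cf ev Un Eb dl IsRt gg hv own Irn Dn pr Fr xi fr ph fp Om rt)
open Pool.Agent.Y164.PS (L L_comm L_mul_left L_C L_prod_left L_pow ch)
open Pool.Agent.Y164.HG (Geo Del Tau QQ EW AT BT Triv Symp om Dat dg FF E1 E2 TT e2 mu E2v om_E2v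
  F2_add_self)

theorem cf_self (x : F2) : (cf x : F2) = x := by
  have h : algebraMap F2 F2 = RingHom.id F2 := Subsingleton.elim _ _
  show algebraMap F2 F2 x = x
  rw [h]
  rfl

variable {k : Type} [Field k] [Fintype k] {n : ℕ} {a : Fin n → k[X]} {N : ℕ}

theorem mem_pr {D P : k[X]} (hP : P ∈ pr D) : P.Monic ∧ Irreducible P ∧ P ∣ D := by
  have h1 : P ∈ UniqueFactorizationMonoid.normalizedFactors D := Multiset.mem_toFinset.1 hP
  have h2 := UniqueFactorizationMonoid.irreducible_of_normalized_factor P h1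
  have h3 := UniqueFactorizationMonoid.normalize_normalized_factor P h1
  refine ⟨?_, h2, UniqueFactorizationMonoid.dvd_of_mem_normalizedFactors h1⟩
  rw [← h3]
  exact Polynomial.monic_normalize h2.ne_zero

/-- the symbols of the differences at a prime which does not divide `Del a` -/
theorem L_dif (H : Geo a N) {P : k[X]} (hP : Irreducible P) (hc : IsCoprime P (Del a))
    {i j : Fin n} (h : i ≠ j) :
    L (a i - a j) P = ∑ s, mu H.p H.q i j s * L (QQ a s) P +
      (P.natDegree : F2) * ch (a i - a j).leadingCoeff := by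
  have hl : (a i - a j).leadingCoeff ≠ 0 := leadingCoeff_ne_zero.2 (H.ne h)
  have hC : (C (a i - a j).leadingCoeff : k[X]) ≠ 0 := C_ne_zero.2 hl
  have h1 := H.fac h
  have hco : ∀ s : Tau a, IsCoprime (QQ a s) P := fun s =>
    (hc.of_isCoprime_of_dvd_right (H.mem.1 s.2).2.2).symm
  have hne : ∀ s : Tau a, QQ a s ≠ 0 := fun s => (H.fam.irr s).ne_zero
  conv_lhs => rw [h1]
  rw [Pool.Agent.Y164.PS.el, L_mul_left hP.ne_zero hC
    (prod_ne_zero_iff.2 fun s _ => pow_ne_zero _ (hne s))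
    (by
      refine ⟨C (a i - a j).leadingCoeff⁻¹, 0, ?_⟩
      rw [zero_mul, add_zero, ← C_mul, inv_mul_cancel₀ hl, C_1])
    (IsCoprime.prod_left fun s _ => (hco s).pow_left), L_C hl,
    L_prod_left hP.ne_zero (fun s _ => pow_ne_zero _ (hne s)) (fun s _ => (hco s).pow_left), add_comm]
  congr 1
  refine sum_congr rfl fun s _ => ?_
  rw [L_pow hP.ne_zero (hne s) (hco s), H.cast_exp h]

theorem t_CNV : S_CNV := by
  intro k _ _ n _ a N H m D hD σ w x0
  have hcop : ∀ P : Ip D, Irreducible P.1 ∧ IsCoprime P.1 (Del a) := by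
    intro P
    obtain ⟨h1, h2, h3⟩ := mem_pr P.2
    refine ⟨h2, ?_⟩
    have h4 := (mem_filter.1 hD).2.2
    exact h4.of_isCoprime_of_dvd_left h3
  refine ⟨fun P l => ?_, fun s => ?_⟩
  · obtain ⟨hi, hc⟩ := hcop P
    have e0 : (E1 (A := AT fun P : Ip D => P.1) (H.dat σ) (BT (QQ a) fun P : Ip D => P.1)
      (fun P => (P.1.natDegree : F2)) w x0 P).1 l =
      ∑ P' : Ip D, L P.1 P'.1 * ((w.1 P').1 l + (w.1 P).1 l) +
      ∑ s : Tau a, L P.1 (QQ a s) * (((w.1 P).1 (H.p s) + (w.1 P).1 (H.q s)) * e2 (H.p s) (H.q s) l +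
        w.2 s * e2 (H.p s) (H.q s) l) +
      (P.1.natDegree : F2) * (H.comb.ksf (w.1 P).1 l + x0.1 l) := by
      rw [E1]
      simp only [Submodule.coe_add, Submodule.coe_sum, Submodule.coe_smul, Pi.add_apply,
        Finset.sum_apply, Pi.smul_apply, smul_eq_mul]
      congr 1
      congr 1
      refine sum_congr rfl fun s _ => ?_
      congr 1
      congr 1
      show om (w.1 P) (E2v (H.p s) (H.q s)) * e2 (H.p s) (H.q s) l = _
      rw [om_E2v]
    rw [e0, EQ1, lap]
    have e1 : ∀ s : Tau a, ((w.1 P).1 (H.p s) + (w.1 P).1 (H.q s)) * e2 (H.p s) (H.q s) l =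
        ∑ j, mu H.p H.q l j s * ((w.1 P).1 l + (w.1 P).1 j) := by
      intro s
      rw [mul_comm]
      exact (H.comb.key (w.1 P).1 l s).symm
    have e2' : ∑ s : Tau a, L P.1 (QQ a s) * (((w.1 P).1 (H.p s) + (w.1 P).1 (H.q s)) *
        e2 (H.p s) (H.q s) l) + (P.1.natDegree : F2) * H.comb.ksf (w.1 P).1 l =
        ∑ j, cf (xb a P.1 l j) * ((w.1 P).1 l + (w.1 P).1 j) := by
      rw [Pool.Agent.Y164.HG.Comb.ksf, mul_sum]
      simp only [e1, mul_sum]
      rw [sum_comm, ← sum_add_distrib]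
      refine sum_congr rfl fun j _ => ?_
      rw [cf_self]
      by_cases hlj : l = j
      · subst hlj
        rw [F2_add_self]
        simp
      · show _ = L (a l - a j) P.1 * _
        rw [L_dif H hi hc hlj]
        generalize hv : (w.1 P).1 l + (w.1 P).1 j = v
        rw [add_mul, sum_mul]
        congr 1
        · refine sum_congr rfl fun s _ => ?_
          rw [L_comm H.hm P.1]
          ring
        · show (P.1.natDegree : F2) * (v * ch (a l - a j).leadingCoeff) = _
          ring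
    rw [← e2']
    have e3 : ∑ P' : Ip D, L P.1 P'.1 * ((w.1 P').1 l + (w.1 P).1 l) =
        ∑ P' : Ip D, L P'.1 P.1 * ((w.1 P').1 l + (w.1 P).1 l) :=
      sum_congr rfl fun P' _ => by rw [L_comm H.hm]
    have e4 : ∑ s : Tau a, L (QQ a s) P.1 * (w.2 s * e2 (H.p s) (H.q s) l) =
        ∑ s : Tau a, L P.1 (QQ a s) * (w.2 s * e2 (H.p s) (H.q s) l) :=
      sum_congr rfl fun P' _ => by rw [L_comm H.hm]
    rw [e3, e4]
    simp only [mul_add, sum_add_distrib]
    ring
  · rw [E2, EQ2]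
    show σ s * w.2 s + ∑ P : Ip D, L P.1 (QQ a s) * om (w.1 P) (E2v (H.p s) (H.q s)) +
      ∑ s', L (QQ a s) (QQ a s') * (w.2 s' * om (E2v (H.p s') (H.q s')) (E2v (H.p s) (H.q s))) +
      ((QQ a s).natDegree : F2) * om x0 (E2v (H.p s) (H.q s)) = _
    simp only [om_E2v]
    rfl

end Pool.Agent.Q252.GJ
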